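import Pool.Agent.Helper72.NI.Cong
import Pool.Agent.Helper72.NI.Emb

/-!
# The setting in an ultrapower
-/

set_option autoImplicit false

namespace Pool.Agent.Helper29.NI

open Pool.Agent.Helper72.NI

open MvPolynomial Filter

/-- Homomorphisms of fields and relative algebraic closures. -/
theorem acl_map {E E' : Type} [Field E] [CharZero E] [Field E'] [CharZero E'] (h : E →+* E')
    {S : Set E} {z : E} (hz : z ∈ acl S) : h z ∈ acl (h '' S) := by
  rw [mem_acl'] at hz
  obtain ⟨p, hp0, hp⟩ := hz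
  have hc : ∀ a ∈ Algebra.adjoin ℤ S, h a ∈ acl (h '' S) := by
    intro a ha
    induction ha using Algebra.adjoin_induction with
    | mem x hx => exact subset_acl _ (Set.mem_image_of_mem h hx)
    | algebraMap r =>
      have h1 : h (algebraMap ℤ E r) = (r : E') := by
        rw [eq_intCast, map_intCast]
      rw [h1]
      exact intCast_mem _ r
    | add x y _ _ hx hy => rw [map_add]; exact add_mem hx hy
    | mul x y _ _ hx hy => rw [map_mul]; exact mul_mem hx hy
  refine mem_acl_of_poly
    (p := (p.map (algebraMap (Algebra.adjoin ℤ S) E)).map h) ?_ ?_ ?_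
  · rw [Ne, Polynomial.map_eq_zero, Polynomial.map_eq_zero_iff Subtype.val_injective]
    exact hp0
  · intro n
    rw [Polynomial.coeff_map, Polynomial.coeff_map]
    exact hc _ (p.coeff n).2
  · rw [Polynomial.eval_map, Polynomial.eval₂_hom, Polynomial.eval_map, ← Polynomial.aeval_def, hp,
      map_zero]

/-- The relative algebraic closure of a countable set is countable. -/
theorem countable_acl {E : Type} [Field E] [CharZero E] {S : Set E} (hS : S.Countable) :
    (acl S : Set E).Countable := by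
  have := hS.to_subtype
  have h1 : Countable (MvPolynomial S ℤ) := by
    rw [← Cardinal.mk_le_aleph0_iff]
    refine (MvPolynomial.cardinalMk_le_max).trans ?_
    simp
  have h2 : Countable (Algebra.adjoin ℤ S) := by
    rw [Algebra.adjoin_eq_range]
    have h3 : Function.Surjective ((MvPolynomial.aeval (R := ℤ) (Subtype.val : S → E)).rangeRestrict) :=
      AlgHom.rangeRestrict_surjective _
    exact h3.countable
  have h4 := Algebraic.countable (Algebra.adjoin ℤ S) E
  exact h4.mono fun z hz => mem_acl'.1 hz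

section ultra

variable {T : Type} [Field T]

/-- ULTRA-1: the ultrapower of a valuation ring. -/
def starO (U : Ultrafilter ℕ) (O : ValuationSubring T) : ValuationSubring (Up U T) where
  carrier := {z | ∃ g : ℕ → T, (∀ᶠ n in (U : Filter ℕ), g n ∈ O) ∧ gm U g = z}
  mul_mem' := by
    rintro _ _ ⟨f, hf, rfl⟩ ⟨g, hg, rfl⟩
    refine ⟨fun n => f n * g n, ?_, rfl⟩
    filter_upwards [hf, hg] with n h1 h2
    exact mul_mem h1 h2
  one_mem' := ⟨fun _ => 1, Eventually.of_forall fun _ => one_mem _, rfl⟩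
  add_mem' := by
    rintro _ _ ⟨f, hf, rfl⟩ ⟨g, hg, rfl⟩
    refine ⟨fun n => f n + g n, ?_, rfl⟩
    filter_upwards [hf, hg] with n h1 h2
    exact add_mem h1 h2
  zero_mem' := ⟨fun _ => 0, Eventually.of_forall fun _ => zero_mem _, rfl⟩
  neg_mem' := by
    rintro _ ⟨f, hf, rfl⟩
    refine ⟨fun n => - f n, ?_, rfl⟩
    filter_upwards [hf] with n h1
    exact neg_mem h1
  mem_or_inv_mem' := by
    intro z
    obtain ⟨g, rfl⟩ := gm_surj z
    have h1 : ∀ᶠ n in (U : Filter ℕ), g n ∈ O ∨ (g n)⁻¹ ∈ O :=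
      Eventually.of_forall fun n => O.mem_or_inv_mem (g n)
    rcases Ultrafilter.eventually_or.1 h1 with h2 | h2
    · exact Or.inl ⟨g, h2, rfl⟩
    · exact Or.inr ⟨fun n => (g n)⁻¹, h2, rfl⟩

/-- ULTRA-2. -/
theorem starO_le {U : Ultrafilter ℕ} {O : ValuationSubring T} {g : ℕ → T} :
    (starO U O).valuation (gm U g) ≤ 1 ↔ ∀ᶠ n in (U : Filter ℕ), O.valuation (g n) ≤ 1 := by
  rw [ValuationSubring.valuation_le_one_iff]
  constructor
  · rintro ⟨f, hf, h⟩
    filter_upwards [hf, gm_eq.1 h] with n h1 h2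
    rw [← h2]
    exact (O.valuation_le_one_iff _).2 h1
  · intro h
    refine ⟨g, ?_, rfl⟩
    filter_upwards [h] with n hn
    exact (O.valuation_le_one_iff _).1 hn

theorem val_lt_one_iff {K : Type} [Field K] {Γ : Type} [LinearOrderedCommGroupWithZero Γ]
    (v : Valuation K Γ) (z : K) : v z < 1 ↔ z = 0 ∨ ¬ v z⁻¹ ≤ 1 := by
  by_cases hz : z = 0
  · simp [hz]
  · have h1 : 0 < v z := by
      rw [zero_lt_iff, Ne, map_eq_zero]
      exact hz
    rw [map_inv₀, not_le, one_lt_inv₀ h1]
    simp [hz]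

theorem starO_lt {U : Ultrafilter ℕ} {O : ValuationSubring T} {g : ℕ → T} :
    (starO U O).valuation (gm U g) < 1 ↔ ∀ᶠ n in (U : Filter ℕ), O.valuation (g n) < 1 := by
  rw [val_lt_one_iff, ← gm_inv, starO_le, gm_eq_zero, ← Ultrafilter.eventually_not,
    ← Ultrafilter.eventually_or]
  exact eventually_congr (Eventually.of_forall fun n => (val_lt_one_iff O.valuation (g n)).symm)

/-- Values of polynomials in an ultrapower. -/
theorem eval_gm {U : Ultrafilter ℕ} {σ : Type} (F : MvPolynomial σ T) (X : σ → ℕ → T) :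
    eval (fun i => gm U (X i)) (map (cst U) F) = gm U fun n => eval (fun i => X i n) F := by
  induction F using MvPolynomial.induction_on with
  | C a =>
    rw [map_C, eval_C]
    simp only [eval_C]
    rfl
  | add p q hp hq =>
    rw [map_add, map_add, hp, hq, ← gm_add]
    simp only [map_add]
  | mul_X p i hp =>
    rw [map_mul, map_X, map_mul, eval_X, hp, ← gm_mul]
    simp only [map_mul, eval_X]

theorem endo_cst {F : Subfield T} {N d : ℕ} {U : Ultrafilter ℕ}
    {f : Fin (N + 1) → MvPolynomial (Fin (N + 1)) T} (hf : Endo F d f)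
    {F' : Subfield (Up U T)} (hF' : ∀ c ∈ F, cst U c ∈ F') :
    Endo F' d (fun i => map (cst U) (f i)) := by
  refine ⟨hf.two_le, fun i => (hf.hom i).map _, fun i m => ?_, fun x hx => ?_⟩
  · rw [coeff_map]
    exact hF' _ (hf.coeff i m)
  · choose X hX using fun i => gm_surj (x i)
    have hx' : x = fun i => gm U (X i) := funext fun i => (hX i).symm
    have h1 : ∀ i, ∀ᶠ n in (U : Filter ℕ), eval (fun j => X j n) (f i) = 0 := by
      intro i
      have h2 := hx i
      rw [hx', eval_gm, gm_eq_zero] at h2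
      exact h2
    have h3 : ∀ᶠ n in (U : Filter ℕ), ∀ i, eval (fun j => X j n) (f i) = 0 := eventually_all.2 h1
    funext i
    rw [← hX i]
    change gm U (X i) = 0
    rw [gm_eq_zero]
    filter_upwards [h3] with n hn
    exact congrFun (hf.nz _ hn) i

/-- ULTRA-3: the whole setting in an ultrapower. -/
theorem exists_ctx [IsAlgClosed T] [CharZero T] {k : Subfield T}
    [IsAlgClosed k] (hcount : (k : Set T).Countable) {t : T} (ht : t ∉ k)
    (hT : ∀ z : T, z ∈ acl (insert t (k : Set T)))
    {N d : ℕ} (hN : 1 ≤ N) {f φ : Fin (N + 1) → MvPolynomial (Fin (N + 1)) T} (hf : Endo ⊤ d f)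
    {O : ValuationSubring T} (hk : ∀ b ∈ k, O.valuation b ≤ 1)
    (hres : ∀ z, O.valuation z ≤ 1 → ∃ c ∈ k, O.valuation (z - c) < 1) (hφ : Endo k d φ)
    (hint : ∀ i m, O.valuation ((f i).coeff m) ≤ 1)
    (hred : ∀ i m, O.valuation ((f i).coeff m - (φ i).coeff m) < 1)
    (U : Ultrafilter ℕ) (hU : ∀ m : ℕ, ∀ᶠ n in (U : Filter ℕ), m ≤ n) :
    Ctx (starO U O).valuation (k.map (cst U)) (cst (E := T) U).fieldRange (star U k) (cst U t) d
      (fun i => map (cst U) (f i)) (fun i => map (cst U) (φ i)) where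
  algE := inferInstance
  algk := by
    let e : k ≃+* (k.map (cst U)) :=
      Subring.equivMapOfInjective k.toSubring (cst U) cst_inj
    exact IsAlgClosed.of_ringEquiv k _ e
  algK := by
    let e : T ≃+* (cst (E := T) U).fieldRange := RingEquiv.ofBijective (cst (E := T) U).rangeRestrictField
      ⟨fun a b hab => cst_inj (congrArg Subtype.val hab), fun ⟨_, b, hb⟩ => ⟨b, Subtype.ext hb⟩⟩
    exact IsAlgClosed.of_ringEquiv T _ e
  algΩ := isAlgClosed_star k
  one_le := hN
  kK := by
    rintro _ ⟨c, _, rfl⟩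
    exact ⟨c, rfl⟩
  kΩ := map_cst_le_star k
  tK := ⟨t, rfl⟩
  tΩ := fun h => ht (cst_mem_star.1 h)
  Kt := by
    rintro _ ⟨c, rfl⟩
    have h1 := acl_map (cst U) (hT c)
    rw [Set.image_insert_eq] at h1
    exact h1
  resK := by
    rintro _ ⟨b, rfl⟩ hb
    have h1 : ∀ᶠ n in (U : Filter ℕ), O.valuation b ≤ 1 := starO_le.1 hb
    obtain ⟨c, hc, h2⟩ := hres b h1.exists.choose_spec
    refine ⟨cst U c, ⟨c, hc, rfl⟩, ?_⟩
    rw [← map_sub]
    exact starO_lt.2 (Eventually.of_forall fun _ => h2)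
  valΩ := by
    rintro _ ⟨g, hg, rfl⟩
    exact starO_le.2 (Eventually.of_forall fun n => hk _ (hg n))
  resE := by
    intro z hz
    obtain ⟨g, rfl⟩ := gm_surj z
    have h1 := starO_le.1 hz
    have h2 : ∀ n, ∃ c ∈ k, O.valuation (g n) ≤ 1 → O.valuation (g n - c) < 1 := by
      intro n
      by_cases hn : O.valuation (g n) ≤ 1
      · obtain ⟨c, hc, h3⟩ := hres _ hn
        exact ⟨c, hc, fun _ => h3⟩
      · exact ⟨0, zero_mem _, fun h => absurd h hn⟩
    choose c hc hcg using h2
    refine ⟨gm U c, ⟨c, hc, rfl⟩, ?_⟩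
    rw [← gm_sub]
    refine starO_lt.2 ?_
    filter_upwards [h1] with n hn
    exact hcg n hn
  countk := by
    have h1 : ((k.map (cst U) : Subfield (Up U T)) : Set (Up U T)) = cst U '' (k : Set T) :=
      Subfield.coe_map _ _
    rw [h1]
    exact hcount.image _
  big := by
    intro S hS hSc
    have h1 : ((acl S : Set (Up U T)) ∩ (star U k : Set (Up U T))).Countable :=
      (countable_acl hSc).mono Set.inter_subset_left
    obtain ⟨a, ha⟩ := h1.exists_eq_range ⟨0, zero_mem _, zero_mem _⟩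
    have h2 : ∀ m, a m ∈ star U k := by
      intro m
      have h3 : a m ∈ (acl S : Set (Up U T)) ∩ (star U k : Set (Up U T)) := by
        rw [ha]
        exact Set.mem_range_self m
      exact h3.2
    choose c hc hca using fun m => mem_star.1 (h2 m)
    have hinf : (k : Set T).Infinite := by
      rw [← Set.infinite_coe_iff]
      exact inferInstanceAs (Infinite k)
    have h4 : ∀ n, ∃ b ∈ k, ∀ m ≤ n, b ≠ c m n := by
      intro n
      classical
      obtain ⟨b, hb, hb'⟩ := hinf.exists_notMem_finset ((Finset.range (n + 1)).image fun m => c m n)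
      refine ⟨b, hb, fun m hm h => hb' ?_⟩
      rw [Finset.mem_image]
      exact ⟨m, Finset.mem_range.2 (by omega), h.symm⟩
    choose b hb hbc using h4
    refine ⟨gm U b, ⟨b, hb, rfl⟩, fun hmem => ?_⟩
    have h5 : gm U b ∈ (acl S : Set (Up U T)) ∩ (star U k : Set (Up U T)) := ⟨hmem, b, hb, rfl⟩
    rw [ha] at h5
    obtain ⟨m, hm⟩ := h5
    rw [← hca m] at hm
    obtain ⟨n, hn1, hn2⟩ := ((gm_eq.1 hm).and (hU m)).exists
    exact hbc n m hn2 hn1.symm
  endf := endo_cst hf fun c _ => ⟨c, rfl⟩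
  endφ := endo_cst hφ fun c hc => ⟨c, hc, rfl⟩
  intf := by
    intro i m
    rw [coeff_map]
    exact starO_le.2 (Eventually.of_forall fun _ => hint i m)
  red := by
    intro i m
    rw [coeff_map, coeff_map, ← map_sub]
    exact starO_lt.2 (Eventually.of_forall fun _ => hred i m)

end ultra

end Pool.Agent.Helper29.NI
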